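import Mathlib
import Pool.Agent.H.MP_840660_pr.A

namespace Pool.Agent.Results.MP_840660_pr.No

open Filter Topology Finset

abbrev Z (d : ℕ) := Fin d → ℤ

/-- nearest neighbours: Euclidean distance one -/
def adj {d : ℕ} (x y : Z d) : Prop := ∑ i, (x i - y i) ^ 2 = 1

open Classical in
/-- the matrix `F` -/
noncomputable def F {d : ℕ} (β γ : ℝ) (x y : Z d) : ℝ :=
  if x = y then -β else if adj x y then γ / (2 * d) else 0

/-- the quadratic form `⟨f, F f⟩` -/
noncomputable def form {d : ℕ} (β γ : ℝ) (f : Z d → ℝ) : ℝ :=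
  ∑' p : Z d × Z d, f p.1 * F β γ p.1 p.2 * f p.2

/-- `w 0, …, w n` is an `n`-step path -/
def IsPath {d : ℕ} (n : ℕ) (w : ℕ → Z d) : Prop := ∀ i < n, adj (w (i + 1)) (w i)

/-- endpoint-corrected local time -/
noncomputable def lt {d : ℕ} (n : ℕ) (w : ℕ → Z d) (x : Z d) : ℝ :=
  (((Finset.range (n + 1)).filter (fun i => w i = x)).card : ℝ)
    - (if w 0 = x then 1 / 2 else 0) - (if w n = x then 1 / 2 else 0)

/-- probability measures that are pointwise limits of normalised corrected local times -/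
def Fam (d : ℕ) : Set (Z d → ℝ) :=
  {f | (∀ x, 0 ≤ f x) ∧ HasSum f 1 ∧ ∃ (n : ℕ → ℕ) (w : ℕ → ℕ → Z d), Tendsto n atTop atTop ∧
    (∀ k, IsPath (n k) (w k)) ∧ ∀ x, Tendsto (fun k => lt (n k) (w k) x / n k) atTop (𝓝 (f x))}

def IsMaximiser {d : ℕ} (β γ : ℝ) (f : Z d → ℝ) : Prop :=
  f ∈ Fam d ∧ ∀ g ∈ Fam d, form β γ g ≤ form β γ f

/-- the lattice isometry given by a signed permutation and a translation -/
def iso {d : ℕ} (e : Equiv.Perm (Fin d)) (s : Fin d → ℤˣ) (z : Z d) (x : Z d) : Z d :=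
  fun i => s i * x (e i) + z i

open Pool.Agent.H.MP_840660_pr

def pr (x : Z 2) : V := (x 0, x 1)

lemma pr_inj : Function.Injective pr := by
  intro x y h
  have h1 := congrArg Prod.fst h
  have h2 := congrArg Prod.snd h
  funext i; fin_cases i
  · exact h1
  · exact h2

lemma adj_iff (x y : Z 2) : adj x y ↔ ad (pr x) (pr y) := by
  unfold adj ad pr
  rw [Fin.sum_univ_two]
  simp only
  generalize x 0 - y 0 = a
  generalize x 1 - y 1 = b
  constructor
  · intro h
    have ha : -1 ≤ a ∧ a ≤ 1 := by constructor <;> nlinarith [sq_nonneg b]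
    have hb : -1 ≤ b ∧ b ≤ 1 := by constructor <;> nlinarith [sq_nonneg a]
    obtain ⟨h1, h2⟩ := ha
    obtain ⟨h3, h4⟩ := hb
    interval_cases a <;> interval_cases b <;> simp_all
  · intro h
    have ha : -1 ≤ a ∧ a ≤ 1 := by omega
    have hb : -1 ≤ b ∧ b ≤ 1 := by omega
    obtain ⟨h1, h2⟩ := ha
    obtain ⟨h3, h4⟩ := hb
    interval_cases a <;> interval_cases b <;> simp_all

lemma F_eq (x y : Z 2) : F 1 4 x y = (M (pr x) (pr y) : ℝ) := by
  unfold F M
  by_cases h : x = y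
  · subst h; simp
  · rw [if_neg h, if_neg (fun e => h (pr_inj e))]
    by_cases h2 : adj x y
    · rw [if_pos h2, if_pos ((adj_iff x y).1 h2)]; norm_num
    · rw [if_neg h2, if_neg (fun e => h2 ((adj_iff x y).2 e))]; simp

lemma F_abs (x y : Z 2) : |F 1 4 x y| ≤ 1 := by
  rw [F_eq]; unfold M; split_ifs <;> simp

lemma upper (f : Z 2 → ℝ) (h0 : ∀ x, 0 ≤ f x) (h1 : HasSum f 1) : form 1 4 f ≤ 1 / 4 := by
  classical
  have hs : Summable (fun p : Z 2 × Z 2 => f p.1 * F 1 4 p.1 p.2 * f p.2) := by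
    have := h1.summable.mul_of_nonneg h1.summable h0 h0
    refine Summable.of_norm_bounded this fun p => ?_
    rw [Real.norm_eq_abs, abs_mul, abs_mul, abs_of_nonneg (h0 _), abs_of_nonneg (h0 _)]
    have := F_abs p.1 p.2
    have h2 := mul_nonneg (h0 p.1) (h0 p.2)
    nlinarith
  have ht : Tendsto (fun T : Finset (Z 2) => ∑ p ∈ T ×ˢ T, f p.1 * F 1 4 p.1 p.2 * f p.2) atTop
      (𝓝 (form 1 4 f)) :=
    (Tendsto.comp hs.hasSum (tendsto_finset_prod_atTop.comp tendsto_atTop_diagonal) :)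
  refine le_of_tendsto' ht fun T => ?_
  set g : V → ℝ := fun p => f ![p.1, p.2] with hg
  have hgf : ∀ x, g (pr x) = f x := fun x => by
    simp only [hg, pr]; congr 1; funext i; fin_cases i <;> rfl
  have hm := main (T.image pr) g (fun p => h0 _)
  unfold B at hm
  simp only [Finset.sum_image (pr_inj.injOn), hgf] at hm
  rw [Finset.sum_product]
  simp only [F_eq]
  have hb : ∑ x ∈ T, f x ≤ 1 := sum_le_hasSum T (fun x _ => h0 x) h1
  have hb0 : 0 ≤ ∑ x ∈ T, f x := Finset.sum_nonneg fun x _ => h0 x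
  nlinarith

noncomputable def fr (c : Fin 8 → Z 2) (x : Z 2) : ℝ := ∑ i, if c i = x then 1 / 8 else 0

def wk (c : Fin 8 → Z 2) (i : ℕ) : Z 2 := c ⟨i % 8, Nat.mod_lt _ (by norm_num)⟩

lemma cnt (c : Fin 8 → Z 2) (x : Z 2) (m : ℕ) :
    ∑ i ∈ Finset.range (8 * m), (if wk c i = x then (1 : ℝ) else 0) = 8 * m * fr c x := by
  induction m with
  | zero => simp
  | succ m ih =>
    rw [Nat.mul_succ, Finset.sum_range_add, ih, Finset.sum_range (fun i => if wk c (8 * m + i) = x then (1 : ℝ) else 0)]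
    have : ∀ i : Fin 8, wk c (8 * m + i) = c i := fun i => by
      unfold wk; congr 1; ext; simp only; have := i.2; omega
    simp only [this]
    have h8 : ∑ i : Fin 8, (if c i = x then (1 : ℝ) else 0) = 8 * fr c x := by
      unfold fr; rw [Finset.mul_sum]
      exact Finset.sum_congr rfl fun i _ => by split_ifs <;> norm_num
    rw [h8]; push_cast; ring

lemma mem (c : Fin 8 → Z 2) (hc : ∀ i, ad (pr (c (i + 1))) (pr (c i))) : fr c ∈ Fam 2 := by
  refine ⟨fun x => Finset.sum_nonneg fun i _ => by split_ifs <;> norm_num, ?_,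
    fun k => 8 * (k + 1), fun _ => wk c, ?_, fun k i _ => ?_, fun x => ?_⟩
  · have : HasSum (fun x => ∑ i : Fin 8, if c i = x then (1 / 8 : ℝ) else 0) (∑ _i : Fin 8, 1 / 8) :=
      hasSum_sum fun i _ => by
        have := hasSum_ite_eq (c i) (1 / 8 : ℝ)
        simpa [eq_comm] using this
    have e : (∑ _i : Fin 8, (1 / 8 : ℝ)) = 1 := by simp
    rw [e] at this; exact this
  · exact tendsto_atTop_mono (fun k => by simp only [id]; omega) tendsto_id
  · rw [adj_iff]
    have := hc ⟨i % 8, Nat.mod_lt _ (by norm_num)⟩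
    have e : wk c (i + 1) = c (⟨i % 8, Nat.mod_lt _ (by norm_num)⟩ + 1) := by
      unfold wk; congr 1; ext; simp [Fin.val_add]
    beta_reduce
    rw [e]; exact this
  · have : ∀ k : ℕ, lt (8 * (k + 1)) (wk c) x / ((8 * (k + 1) : ℕ) : ℝ) = fr c x := by
      intro k
      unfold lt
      rw [Finset.card_filter]
      push_cast
      rw [Finset.sum_range_succ, cnt]
      have e : wk c (8 * (k + 1)) = wk c 0 := by
        unfold wk; congr 1; ext; simp
      rw [e]
      have hk : (8 * ((k : ℝ) + 1)) ≠ 0 := by positivity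
      rw [div_eq_iff hk]
      push_cast
      split_ifs <;> ring
    simp only [this]
    exact tendsto_const_nhds

lemma val (c : Fin 8 → Z 2) (hc : ∑ i, ∑ j, M (pr (c i)) (pr (c j)) = 16) :
    form 1 4 (fr c) = 1 / 4 := by
  classical
  have h : HasSum (fun p : Z 2 × Z 2 => ∑ i : Fin 8, ∑ j : Fin 8,
      if p = (c i, c j) then F 1 4 (c i) (c j) / 64 else 0)
      (∑ i : Fin 8, ∑ j : Fin 8, F 1 4 (c i) (c j) / 64) :=
    hasSum_sum fun i _ => hasSum_sum fun j _ => hasSum_ite_eq _ _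
  have e : (fun p : Z 2 × Z 2 => fr c p.1 * F 1 4 p.1 p.2 * fr c p.2) =
      fun p : Z 2 × Z 2 => ∑ i : Fin 8, ∑ j : Fin 8,
      if p = (c i, c j) then F 1 4 (c i) (c j) / 64 else 0 := by
    funext p
    obtain ⟨x, y⟩ := p
    unfold fr
    simp only [Finset.sum_mul, Finset.mul_sum]
    rw [Finset.sum_comm]
    refine Finset.sum_congr rfl fun i _ => Finset.sum_congr rfl fun j _ => ?_
    by_cases h1 : c i = x
    · by_cases h2 : c j = y
      · subst h1 h2; simp; ring
      · simp [h2, Ne.symm h2]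
    · simp [h1, Ne.symm h1]
  unfold form
  rw [e, h.tsum_eq]
  simp only [F_eq, ← Finset.sum_div]
  have : ∑ i, ∑ j, (M (pr (c i)) (pr (c j)) : ℝ) = 16 := by exact_mod_cast hc
  rw [this]; norm_num

def c1 : Fin 8 → Z 2 := ![![0,0], ![1,0], ![1,1], ![0,1], ![0,0], ![1,0], ![1,1], ![0,1]]

def c2 : Fin 8 → Z 2 := ![![0,0], ![1,0], ![1,1], ![0,1], ![0,0], ![-1,0], ![-1,1], ![0,1]]

lemma fr_eq (c : Fin 8 → Z 2) (x : Z 2) :
    fr c x = ((Finset.univ.filter (fun i => c i = x)).card : ℝ) / 8 := by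
  unfold fr
  rw [Finset.card_filter]; push_cast
  rw [Finset.sum_div]
  exact Finset.sum_congr rfl fun i _ => by split_ifs <;> norm_num

theorem result : ∃ (d : ℕ) (β γ : ℝ), 2 ≤ d ∧ 0 < β ∧ β < γ ∧ ∃ f f' : Z d → ℝ,
    IsMaximiser β γ f ∧ IsMaximiser β γ f' ∧
      ∀ (e : Equiv.Perm (Fin d)) (s : Fin d → ℤˣ) (z : Z d), f' ≠ f ∘ iso e s z := by
  refine ⟨2, 1, 4, le_rfl, one_pos, by norm_num, fr c1, fr c2, ⟨mem c1 (by decide), fun g hg => ?_⟩,
    ⟨mem c2 (by decide), fun g hg => ?_⟩, fun e s z h => ?_⟩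
  · rw [val c1 (by decide)]; exact upper g hg.1 hg.2.1
  · rw [val c2 (by decide)]; exact upper g hg.1 hg.2.1
  · have h1 := congrFun h ![1, 0]
    simp only [Function.comp, fr_eq] at h1
    generalize iso e s z ![1, 0] = y at h1
    have h2 : (Finset.univ.filter (fun i => c2 i = ![1, 0])).card = 1 := by decide
    rw [h2] at h1
    have h3 : (Finset.univ.filter (fun i => c1 i = y)).card = 1 := by
      have : ((Finset.univ.filter (fun i => c1 i = y)).card : ℝ) = 1 := by push_cast at h1; linarith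
      exact_mod_cast this
    obtain ⟨i, hi⟩ := Finset.card_pos.1 (by rw [h3]; norm_num : 0 < _)
    have hi' : c1 i = y := (Finset.mem_filter.1 hi).2
    subst hi'
    revert h3
    have : ∀ i, (Finset.univ.filter (fun j => c1 j = c1 i)).card ≠ 1 := by decide
    exact this i

end Pool.Agent.Results.MP_840660_pr.No
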